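import Mathlib
import Pool.Agent.Lib.helper22.SHD

set_option autoImplicit false

namespace Pool.Agent.Results.MP_47dce7_gt.Proof

open Set Filter Topology H22S unitInterval

universe u v

variable {X : Type u} [TopologicalSpace X]

/-- a point of the remainder lies in a zero set that misses `X` -/
theorem witness {ι : Type v} {e : X → ι → ℝ} (he : IsClosedEmbedding e) {p : StoneCech X}
    (hp : p ∉ range (stoneCechUnit : X → StoneCech X)) :
    ∃ f : StoneCech X → ℝ, Continuous f ∧ f p = 0 ∧ (∀ z, 0 ≤ f z) ∧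
      ∀ x, 0 < f (stoneCechUnit x) := by
  by_contra hcon
  push Not at hcon
  have : (comap (stoneCechUnit : X → StoneCech X) (𝓝 p)).NeBot :=
    comap_neBot fun t ht => denseRange_stoneCechUnit.mem_nhds ht
  let 𝒰 := Ultrafilter.of (comap (stoneCechUnit : X → StoneCech X) (𝓝 p))
  have h𝒰 : Tendsto stoneCechUnit (𝒰 : Filter X) (𝓝 p) :=
    tendsto_iff_comap.2 (Ultrafilter.of_le _)
  have key : ∀ i, ∃ r, Tendsto (fun x => e x i) (𝒰 : Filter X) (𝓝 r) := by
    intro i
    have hpos : ∀ x, 0 < 1 / (1 + |e x i|) := fun x => by positivity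
    let u : X → I := fun x => ⟨1 / (1 + |e x i|), (hpos x).le, by
      rw [div_le_one (by positivity)]; linarith [abs_nonneg (e x i)]⟩
    have hu : Continuous u := Continuous.subtype_mk (continuous_const.div
      (continuous_const.add ((continuous_apply i).comp he.continuous).abs)
      fun x => (by positivity : (1 + |e x i|) ≠ 0)) _
    have hu' : ∀ x, stoneCechExtend hu (stoneCechUnit x) = u x := fun x =>
      congrFun (stoneCechExtend_extends hu) x
    have hc : Continuous fun z => ((stoneCechExtend hu z : I) : ℝ) :=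
      continuous_subtype_val.comp (continuous_stoneCechExtend hu)
    have h0 : 0 < ((stoneCechExtend hu p : I) : ℝ) := by
      refine lt_of_le_of_ne (stoneCechExtend hu p).2.1 fun h => ?_
      obtain ⟨x, hx⟩ := hcon _ hc h.symm fun z => (stoneCechExtend hu z).2.1
      rw [hu'] at hx
      exact absurd (hpos x) (not_lt.2 hx)
    obtain ⟨δ, hδ, hδ'⟩ := exists_between h0
    have h1 : ∀ᶠ x in (𝒰 : Filter X), e x i ∈ Icc (-(1 / δ)) (1 / δ) := by
      filter_upwards [((hc.tendsto p).comp h𝒰).eventually (lt_mem_nhds hδ')] with x hx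
      simp only [Function.comp, hu'] at hx
      change δ < 1 / (1 + |e x i|) at hx
      rw [lt_div_iff₀ (by positivity)] at hx
      rw [mem_Icc, ← abs_le, le_div_iff₀ hδ]
      nlinarith
    obtain ⟨r, -, hr⟩ := isCompact_Icc.ultrafilter_le_nhds (𝒰.map fun x => e x i)
      (le_principal_iff.2 h1)
    exact ⟨r, hr⟩
  choose r hr using key
  have h2 : Tendsto e (𝒰 : Filter X) (𝓝 r) := tendsto_pi_nhds.2 hr
  obtain ⟨x, rfl⟩ := he.isClosed_range.mem_of_tendsto h2 (Eventually.of_forall fun x => ⟨x, rfl⟩)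
  have h3 : Tendsto id (𝒰 : Filter X) (𝓝 x) := he.isInducing.tendsto_nhds_iff.2 h2
  exact hp ⟨x, tendsto_nhds_unique ((continuous_stoneCechUnit.tendsto x).comp h3) h𝒰⟩

/-- no sequence of other points converges to such a point -/
theorem no_seq {f : StoneCech X → ℝ} (hf : Continuous f) {p : StoneCech X} (hp : f p = 0)
    (hX : ∀ x, 0 < f (stoneCechUnit x)) {q : ℕ → StoneCech X} (hq : ∀ n, q n ≠ p) :
    ¬ Tendsto q atTop (𝓝 p) := by
  intro ht
  have h1 : ∀ n : ℕ, ∃ C ∈ 𝓝 (q n), IsClosed C ∧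
      C ⊆ {p}ᶜ ∩ {z | f z < f (q n) + 1 / ((n : ℝ) + 1)} := fun n =>
    exists_mem_nhds_isClosed_subset (inter_mem (isOpen_compl_singleton.mem_nhds (hq n))
      ((isOpen_lt hf continuous_const).mem_nhds (by
        show f (q n) < _
        have : (0 : ℝ) < 1 / ((n : ℝ) + 1) := by positivity
        linarith)))
  choose C hC hCc hC' using h1
  obtain ⟨φ, -, hφ⟩ := exists_seq_of_forall_finset_exists (fun _ : ℕ => True)
    (fun a b => a < b ∧ q b ∉ C a) (fun s _ => by
      have : ∀ᶠ b in atTop, ∀ a ∈ s, a < b ∧ q b ∉ C a :=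
        (eventually_all_finset s).2 fun a _ => (eventually_gt_atTop a).and
          (ht.eventually ((hCc a).isOpen_compl.mem_nhds fun h => (hC' a h).1 rfl))
      obtain ⟨b, hb⟩ := this.exists
      exact ⟨b, trivial, hb⟩)
  have hmono : StrictMono φ := fun a b hab => (hφ a b hab).1
  let W : ℕ → Set (StoneCech X) := fun k => interior (C (φ k)) ∩ ⋂ j ∈ Iio k, (C (φ j))ᶜ
  have hWo : ∀ k, IsOpen (W k) := fun k => isOpen_interior.inter
    ((finite_Iio k).isOpen_biInter fun j _ => (hCc _).isOpen_compl)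
  have hWq : ∀ k, q (φ k) ∈ W k := fun k => ⟨mem_interior_iff_mem_nhds.2 (hC _),
    mem_iInter₂.2 fun j hj => (hφ j k hj).2⟩
  have hWd : ∀ j k z, z ∈ W j → z ∈ W k → j = k := by
    intro j k z h1 h2
    rcases lt_trichotomy j k with h | h | h
    · exact absurd (interior_subset h1.1) (mem_iInter₂.1 h2.2 j h)
    · exact h
    · exact absurd (interior_subset h2.1) (mem_iInter₂.1 h1.2 k h)
  have h2 : ∀ k, ∃ h : C(StoneCech X, ℝ), EqOn h 0 (W k)ᶜ ∧ EqOn h 1 {q (φ k)} ∧
      ∀ z, h z ∈ Icc (0 : ℝ) 1 := fun k =>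
    exists_continuous_zero_one_of_isClosed (hWo k).isClosed_compl isClosed_singleton
      (disjoint_singleton_right.2 fun h => h (hWq k))
  choose h h0 h1 h01 using h2
  have hsupp : ∀ k z, h k z ≠ 0 → z ∈ W k := fun k z hz => by_contra fun hn => hz (h0 k hn)
  have hlim : Tendsto (fun k => f (q (φ k)) + 1 / ((φ k : ℝ) + 1)) atTop (𝓝 0) := by
    have := (((hf.tendsto p).comp ht).add tendsto_one_div_add_atTop_nhds_zero_nat).comp
      hmono.tendsto_atTop
    rwa [hp, add_zero] at this
  have hlf : LocallyFinite fun k => Function.support fun x : X => h (2 * k) (stoneCechUnit x) := by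
    intro x
    obtain ⟨δ, hδ, hδ'⟩ := exists_between (hX x)
    obtain ⟨N, hN⟩ := eventually_atTop.1 (hlim.eventually (gt_mem_nhds hδ))
    refine ⟨{y | δ < f (stoneCechUnit y)}, (isOpen_lt continuous_const
      (hf.comp continuous_stoneCechUnit)).mem_nhds hδ', (finite_Iio N).subset ?_⟩
    rintro k ⟨y, hy, hy'⟩
    by_contra hk
    have a1 := hN (2 * k) (by simp only [mem_Iio] at hk; omega)
    have a2 : f (stoneCechUnit y) < _ := (hC' _ (interior_subset (hsupp _ _ hy).1)).2
    have a3 : δ < f (stoneCechUnit y) := hy'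
    linarith
  let g0 : X → ℝ := fun x => ∑ᶠ k, h (2 * k) (stoneCechUnit x)
  have hg0 : Continuous g0 := continuous_finsum
    (fun k => (h (2 * k)).continuous.comp continuous_stoneCechUnit) hlf
  have e1 : ∀ k x, stoneCechUnit x ∈ W (2 * k) → g0 x = h (2 * k) (stoneCechUnit x) :=
    fun k x hx => finsum_eq_single _ k fun j hj => by_contra fun hn => hj (by
      have := hWd _ _ _ (hsupp _ _ hn) hx
      omega)
  have e2 : ∀ x, (∀ k, stoneCechUnit x ∉ W (2 * k)) → g0 x = 0 :=
    fun x hx => finsum_eq_zero_of_forall_eq_zero fun k => h0 _ (hx k)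
  have hI : ∀ x, g0 x ∈ Icc (0 : ℝ) 1 := by
    intro x
    by_cases hx : ∃ k, stoneCechUnit x ∈ W (2 * k)
    · obtain ⟨k, hk⟩ := hx
      rw [e1 k x hk]
      exact h01 _ _
    · push Not at hx
      rw [e2 x hx]
      exact ⟨le_rfl, zero_le_one⟩
  have hg : Continuous fun x => (⟨g0 x, hI x⟩ : I) := hg0.subtype_mk _
  let G : StoneCech X → ℝ := fun z => ((stoneCechExtend hg z : I) : ℝ)
  have hG : Continuous G := continuous_subtype_val.comp (continuous_stoneCechExtend hg)
  have hG' : ∀ x, G (stoneCechUnit x) = g0 x := fun x =>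
    congrArg Subtype.val (congrFun (stoneCechExtend_extends hg) x)
  have loc : ∀ k (c : StoneCech X → ℝ), Continuous c →
      (∀ x, stoneCechUnit x ∈ W k → g0 x = c (stoneCechUnit x)) → G (q (φ k)) = c (q (φ k)) := by
    intro k c hc hx
    refine (isClosed_eq hG hc).closure_subset_iff.2 ?_
      (denseRange_stoneCechUnit.open_subset_closure_inter (hWo k) (hWq k))
    rintro _ ⟨hz, x, rfl⟩
    exact (hG' x).trans (hx x hz)
  have a1 : ∀ k, G (q (φ (2 * k))) = 1 := fun k =>
    (loc (2 * k) _ (h (2 * k)).continuous (e1 k)).trans (h1 _ rfl)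
  have a0 : ∀ k, G (q (φ (2 * k + 1))) = 0 := fun k =>
    loc (2 * k + 1) (fun _ => 0) continuous_const fun x hx => e2 x fun j hj => by
      have := hWd _ _ _ hx hj
      omega
  have t : ∀ i, Tendsto (fun k => G (q (φ (2 * k + i)))) atTop (𝓝 (G p)) := fun i =>
    (((hG.tendsto p).comp ht).comp hmono.tendsto_atTop).comp
      (tendsto_atTop_mono (fun k => by simp only [id]; omega) tendsto_id)
  have b1 : G p = 1 := tendsto_nhds_unique (t 0) (tendsto_const_nhds.congr fun k => (a1 k).symm)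
  have b0 : G p = 0 := tendsto_nhds_unique (t 1) (tendsto_const_nhds.congr fun k => (a0 k).symm)
  exact zero_ne_one (b0.symm.trans b1)

theorem not_isolated {f : StoneCech X → ℝ} (hf : Continuous f) {p : StoneCech X} (hp : f p = 0)
    (h0 : ∀ z, 0 ≤ f z) (hX : ∀ x, 0 < f (stoneCechUnit x)) {U : Set (StoneCech X)}
    (hU : U ∈ 𝓝 p) : ∃ z ∈ U, z ≠ p ∧ z ∉ range (stoneCechUnit : X → StoneCech X) := by
  by_contra hcon
  push Not at hcon
  obtain ⟨N, hN, hNc, hNU⟩ := exists_mem_nhds_isClosed_subset hU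
  have : ∀ n : ℕ, ∃ x : X, stoneCechUnit x ∈ N ∩ {z | f z < 1 / ((n : ℝ) + 1)} := fun n =>
    (denseRange_stoneCechUnit.mem_nhds (inter_mem hN ((isOpen_lt hf continuous_const).mem_nhds
      (by show f p < _; rw [hp]; positivity))))
  choose x hx using this
  refine no_seq hf hp hX (q := fun n => stoneCechUnit (x n))
    (fun n h => (hX (x n)).ne' (h ▸ hp)) ?_
  refine hNc.isCompact.tendsto_nhds_of_unique_mapClusterPt
    (Eventually.of_forall fun n => (hx n).1) fun z hz hcl => ?_
  have h1 : Tendsto (fun n => f (stoneCechUnit (x n))) atTop (𝓝 0) :=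
    squeeze_zero (fun n => h0 _) (fun n => (hx n).2.le) tendsto_one_div_add_atTop_nhds_zero_nat
  have h2 : f z = 0 := eq_of_nhds_neBot ((hcl.tendsto_comp (hf.tendsto z)).clusterPt.mono h1)
  by_contra hne
  obtain ⟨y, rfl⟩ := hcon z (hNU hz) hne
  exact (hX y).ne' h2

theorem result (X : Type u) [TopologicalSpace X] [T35Space X] (ι : Type v) (e : X → ι → ℝ)
    (he : IsClosedEmbedding e) (_hX : ¬ CompactSpace X) :
    SHD ↥(range (stoneCechUnit : X → StoneCech X))ᶜ := by
  intro U hU
  have hinf : ∀ n, (U n).Infinite := by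
    intro n hfin
    obtain ⟨p, hp⟩ := (hU n).2
    have : IsOpen (U n \ (U n \ {p})) := (hU n).1.sdiff (hfin.subset sdiff_subset).isClosed
    obtain ⟨O, hO, hO'⟩ := isOpen_induced_iff.1 this
    obtain ⟨f, h1, h2, h3, h4⟩ := witness he p.2
    have hpO : p ∈ Subtype.val ⁻¹' O := by
      rw [hO']
      exact ⟨hp, fun h => h.2 rfl⟩
    obtain ⟨z, hz, hz1, hz2⟩ := not_isolated h1 h2 h3 h4 (hO.mem_nhds hpO)
    have : (⟨z, hz2⟩ : ↥(range (stoneCechUnit : X → StoneCech X))ᶜ) ∈ Subtype.val ⁻¹' O := hz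
    rw [hO'] at this
    exact this.2 ⟨this.1, fun h => hz1 (congrArg Subtype.val h)⟩
  obtain ⟨x, hx, hxi⟩ : ∃ x : ℕ → ↥(range (stoneCechUnit : X → StoneCech X))ᶜ,
      (∀ n, x n ∈ U n) ∧ Function.Injective x := by
    have : ∀ (n : ℕ) (s : Finset ↥(range (stoneCechUnit : X → StoneCech X))ᶜ),
        ∃ y ∈ U n, y ∉ s := fun n s => (hinf n).exists_notMem_finset s
    choose c hc hc' using this
    classical
    let s : ℕ → Finset ↥(range (stoneCechUnit : X → StoneCech X))ᶜ :=
      fun n => Nat.rec ∅ (fun k t => insert (c k t) t) n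
    have hs : Monotone s := monotone_nat_of_le_succ fun n => Finset.subset_insert _ _
    refine ⟨fun n => c n (s n), fun n => hc _ _, Function.Injective.of_lt_imp_ne fun a b hab h => ?_⟩
    exact hc' b (s b) (h ▸ hs (Nat.succ_le_of_lt hab) (Finset.mem_insert_self _ _))
  refine ⟨x, hx, fun φ hφ p hp => ?_⟩
  obtain ⟨f, h1, h2, -, h4⟩ := witness he p.2
  obtain ⟨N, hN⟩ : ∃ N, ∀ n, x (φ (n + N)) ≠ p := by
    by_cases h : ∃ m, x (φ m) = p
    · obtain ⟨m, hm⟩ := h
      refine ⟨m + 1, fun n hn => ?_⟩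
      have := hφ.injective (hxi (hn.trans hm.symm))
      omega
    · exact ⟨0, fun n hn => h ⟨_, hn⟩⟩
  exact no_seq h1 h2 h4 (q := fun n => (x (φ (n + N))).1) (fun n h => hN n (Subtype.ext h))
    (((continuous_subtype_val.tendsto p).comp hp).comp (tendsto_add_atTop_nat N))

end Pool.Agent.Results.MP_47dce7_gt.Proof
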